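import Mathlib

open Filter Topology Set

namespace Pool.Agent.Results.MP_5bdc9f_an.DendriteDC3

/-! ## Definitions used in the statement -/

/-- A dendrite: a compact connected metric space that is locally connected and contains no
subset homeomorphic to a circle. -/
structure IsDendrite (X : Type) [MetricSpace X] : Prop where
  compact : CompactSpace X
  connected : ConnectedSpace X
  locallyConnected : LocallyConnectedSpace X
  noCircle : ∀ K : Set X, IsEmpty (K ≃ₜ Circle)

/-- A Li-Yorke pair: distinct points whose orbits satisfy `liminf dist = 0 < limsup dist`. -/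
def IsLYPair {X : Type} [MetricSpace X] (f : X → X) (x y : X) : Prop :=
  x ≠ y ∧ liminf (fun k : ℕ => dist (f^[k] x) (f^[k] y)) atTop = 0 ∧
    0 < limsup (fun k : ℕ => dist (f^[k] x) (f^[k] y)) atTop

/-- `LY₂`: there is a Li-Yorke pair. -/
def HasLYPair {X : Type} [MetricSpace X] (f : X → X) : Prop := ∃ x y : X, IsLYPair f x y

/-- `LY_u`: there is an uncountable set in which every two distinct points are a
Li-Yorke pair. -/
def HasUncountableLYSet {X : Type} [MetricSpace X] (f : X → X) : Prop :=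
  ∃ A : Set X, ¬ A.Countable ∧ ∀ x ∈ A, ∀ y ∈ A, x ≠ y → IsLYPair f x y

/-- The quotient `(1/n) #{0 ≤ k ≤ n : dist (f^k x) (f^k y) < δ}`. -/
noncomputable def freq {X : Type} [MetricSpace X] (f : X → X) (x y : X) (δ : ℝ) (n : ℕ) : ℝ :=
  (1 / n : ℝ) * (((Finset.range (n + 1)).filter (fun k => dist (f^[k] x) (f^[k] y) < δ)).card : ℝ)

/-- The lower distribution function `Φ_{xy}(δ)`. -/
noncomputable def lowerPhi {X : Type} [MetricSpace X] (f : X → X) (x y : X) (δ : ℝ) : ℝ :=
  liminf (fun n : ℕ => freq f x y δ n) atTop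

/-- The upper distribution function `Φ*_{xy}(δ)`. -/
noncomputable def upperPhi {X : Type} [MetricSpace X] (f : X → X) (x y : X) (δ : ℝ) : ℝ :=
  limsup (fun n : ℕ => freq f x y δ n) atTop

/-- A DC3 pair: distinct points with `Φ < Φ*` on some interval `(a, b)` with
`0 ≤ a < b ≤ diam X`. -/
def IsDC3Pair {X : Type} [MetricSpace X] (f : X → X) (x y : X) : Prop :=
  x ≠ y ∧ ∃ a b : ℝ, 0 ≤ a ∧ a < b ∧ b ≤ Metric.diam (univ : Set X) ∧
    ∀ δ : ℝ, a < δ → δ < b → lowerPhi f x y δ < upperPhi f x y δ

/-- `DC3₂`: there is a DC3 pair. -/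
def HasDC3Pair {X : Type} [MetricSpace X] (f : X → X) : Prop := ∃ x y : X, IsDC3Pair f x y

/-- `DC3_u`: there is an uncountable set in which every two distinct points are a DC3 pair. -/
def HasUncountableDC3Set {X : Type} [MetricSpace X] (f : X → X) : Prop :=
  ∃ A : Set X, ¬ A.Countable ∧ ∀ x ∈ A, ∀ y ∈ A, x ≠ y → IsDC3Pair f x y



/-! ## Part 0: a circle minus a point is connected -/


lemma circle_compl_singleton_preconnected (z : Circle) : IsPreconnected ({z}ᶜ : Set Circle) := by
  obtain ⟨θ, rfl⟩ := Circle.exp_surjective z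
  have h : ({Circle.exp θ}ᶜ : Set Circle) = Circle.exp '' Ioo θ (θ + 2 * Real.pi) := by
    ext w
    simp only [mem_compl_iff, mem_singleton_iff, mem_image]
    constructor
    · intro hw
      obtain ⟨t, rfl⟩ := Circle.exp_surjective w
      have hp : (0 : ℝ) < 2 * Real.pi := Real.two_pi_pos
      refine ⟨toIcoMod hp θ t, ?_, ?_⟩
      · have h1 := toIcoMod_mem_Ico hp θ t
        refine ⟨lt_of_le_of_ne h1.1 ?_, h1.2⟩
        intro h2
        apply hw
        have h3 : toIcoMod hp θ t = t - toIcoDiv hp θ t • (2 * Real.pi) := rfl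
        rw [h2, h3, Circle.exp_eq_exp]
        exact ⟨toIcoDiv hp θ t, by simp⟩
      · have h3 : toIcoMod hp θ t = t - toIcoDiv hp θ t • (2 * Real.pi) := rfl
        rw [h3, Circle.exp_eq_exp]
        exact ⟨-toIcoDiv hp θ t, by rw [zsmul_eq_mul]; push_cast; ring⟩
    · rintro ⟨t, ⟨h1, h2⟩, rfl⟩ h3
      rw [Circle.exp_eq_exp] at h3
      obtain ⟨m, hm⟩ := h3
      have hp : (0 : ℝ) < 2 * Real.pi := Real.two_pi_pos
      have h4 : 0 < (m : ℝ) * (2 * Real.pi) := by linarith
      have h5 : (m : ℝ) * (2 * Real.pi) < 2 * Real.pi := by linarith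
      have h6 : (0 : ℝ) < m := by
        by_contra hc
        push Not at hc
        nlinarith
      have h7 : (m : ℝ) < 1 := by
        by_contra hc
        push Not at hc
        nlinarith
      have h8 : 0 < m := by exact_mod_cast h6
      have h9 : m < 1 := by exact_mod_cast h7
      omega
  rw [h]
  exact isPreconnected_Ioo.image _ Circle.exp.continuous.continuousOn

/-! ## Part 1: the real tree over an ultrametric space -/

/-- Points of the cone `M × [0,1]` before identification. -/
structure PreTree (M : Type) where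
  pt : M
  ht : ℝ
  nonneg : 0 ≤ ht
  le_one : ht ≤ 1

section TreeSec

variable {M : Type} [MetricSpace M] [IsUltrametricDist M]

/-- Height of the branching point of two points of the cone. -/
noncomputable def PreTree.meet (P Q : PreTree M) : ℝ :=
  min (min P.ht Q.ht) (1 - dist P.pt Q.pt)

lemma PreTree.meet_le_left (P Q : PreTree M) : P.meet Q ≤ P.ht :=
  (min_le_left _ _).trans (min_le_left _ _)

lemma PreTree.meet_le_right (P Q : PreTree M) : P.meet Q ≤ Q.ht :=
  (min_le_left _ _).trans (min_le_right _ _)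

lemma PreTree.meet_comm (P Q : PreTree M) : P.meet Q = Q.meet P := by
  unfold PreTree.meet
  rw [min_comm P.ht Q.ht, dist_comm]

lemma PreTree.meet_self (P : PreTree M) : P.meet P = P.ht := by
  unfold PreTree.meet
  have := P.le_one
  simp [this]

lemma PreTree.min_meet_le (P Q R : PreTree M) :
    min (P.meet R) (R.meet Q) ≤ P.meet Q := by
  have h := IsUltrametricDist.dist_triangle_max P.pt R.pt Q.pt
  unfold PreTree.meet
  refine le_min (le_min ?_ ?_) ?_
  · exact (min_le_left _ _).trans ((min_le_left _ _).trans (min_le_left _ _))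
  · exact (min_le_right _ _).trans ((min_le_left _ _).trans (min_le_right _ _))
  · rcases le_max_iff.1 h with h | h
    · exact (min_le_left _ _).trans ((min_le_right _ _).trans (by linarith))
    · exact (min_le_right _ _).trans ((min_le_right _ _).trans (by linarith))

noncomputable instance : PseudoMetricSpace (PreTree M) where
  dist P Q := P.ht + Q.ht - 2 * P.meet Q
  dist_self P := by rw [PreTree.meet_self]; ring
  dist_comm P Q := by rw [PreTree.meet_comm]; ring
  dist_triangle P Q R := by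
    have h1 := PreTree.min_meet_le P R Q
    have h2 := PreTree.meet_le_right P Q
    have h3 := PreTree.meet_le_left Q R
    rcases min_le_iff.1 h1 with h | h <;> linarith

lemma PreTree.dist_def (P Q : PreTree M) : dist P Q = P.ht + Q.ht - 2 * P.meet Q := rfl

/-- The real tree whose set of ends is `M`. -/
abbrev Tree (M : Type) [MetricSpace M] [IsUltrametricDist M] : Type :=
  SeparationQuotient (PreTree M)

/-- The point at height `t` below the end `x`. -/
noncomputable def tau (x : M) (t : ℝ) : Tree M :=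
  SeparationQuotient.mk ⟨x, max 0 (min 1 t), le_max_left _ _,
    max_le zero_le_one (min_le_left _ _)⟩

lemma clamp_eq {t : ℝ} (h0 : 0 ≤ t) (h1 : t ≤ 1) : max 0 (min 1 t) = t := by
  rw [min_eq_right h1, max_eq_right h0]

lemma exists_tau (p : Tree M) : ∃ (x : M) (t : ℝ), 0 ≤ t ∧ t ≤ 1 ∧ p = tau x t := by
  obtain ⟨P, rfl⟩ := SeparationQuotient.surjective_mk p
  refine ⟨P.pt, P.ht, P.nonneg, P.le_one, ?_⟩
  unfold tau
  congr 1
  cases P
  simp_all

lemma dist_tau {x y : M} {s t : ℝ} (hs0 : 0 ≤ s) (hs1 : s ≤ 1) (ht0 : 0 ≤ t) (ht1 : t ≤ 1) :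
    dist (tau x s) (tau y t) = s + t - 2 * min (min s t) (1 - dist x y) := by
  unfold tau
  rw [SeparationQuotient.dist_mk, PreTree.dist_def]
  unfold PreTree.meet
  simp only [clamp_eq hs0 hs1, clamp_eq ht0 ht1]

lemma dist_tau_le (x y : M) (s t : ℝ) :
    dist (tau x s) (tau y t) ≤ |s - t| + 2 * dist x y := by
  unfold tau
  rw [SeparationQuotient.dist_mk, PreTree.dist_def]
  unfold PreTree.meet
  have hd : 0 ≤ dist x y := dist_nonneg
  have h1 : |max 0 (min 1 s) - max 0 (min 1 t)| ≤ |s - t| := by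
    refine (abs_max_sub_max_le_max _ _ _ _).trans ?_
    rw [sub_self, abs_zero]
    refine max_le (abs_nonneg _) ?_
    refine (abs_min_sub_min_le_max _ _ _ _).trans ?_
    rw [sub_self, abs_zero]
    exact max_le (abs_nonneg _) le_rfl
  refine le_trans ?_ (add_le_add_left h1 _)
  have hs1 : max 0 (min 1 s) ≤ 1 := max_le zero_le_one (min_le_left _ _)
  have ht1 : max 0 (min 1 t) ≤ 1 := max_le zero_le_one (min_le_left _ _)
  simp only
  generalize max 0 (min 1 s) = s' at *
  generalize max 0 (min 1 t) = t' at *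
  rcases le_total (min s' t') (1 - dist x y) with h | h
  · rw [min_eq_left h]
    have : s' + t' - 2 * min s' t' = |s' - t'| := by
      rcases le_total s' t' with h | h
      · rw [min_eq_left h, abs_of_nonpos (by linarith)]; ring
      · rw [min_eq_right h, abs_of_nonneg (by linarith)]; ring
    linarith
  · rw [min_eq_right h]
    have := abs_nonneg (s' - t')
    linarith

lemma continuous_tau : Continuous (fun p : M × ℝ => tau p.1 p.2) := by
  refine continuous_iff_continuousAt.2 fun p => ?_
  rw [ContinuousAt, tendsto_iff_dist_tendsto_zero]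
  have hlim : Tendsto (fun q : M × ℝ => |q.2 - p.2| + 2 * dist q.1 p.1) (𝓝 p) (𝓝 0) := by
    have : Continuous (fun q : M × ℝ => |q.2 - p.2| + 2 * dist q.1 p.1) := by fun_prop
    have h := this.tendsto p
    simpa using h
  exact squeeze_zero (fun _ => dist_nonneg) (fun q => dist_tau_le _ _ _ _) hlim

lemma continuous_tau' (x : M) : Continuous (tau x) :=
  continuous_tau.comp (by fun_prop : Continuous (fun t : ℝ => (x, t)))

instance [CompactSpace M] : CompactSpace (Tree M) := by
  have h : IsCompact ((fun p : M × ℝ => tau p.1 p.2) '' (univ ×ˢ Icc 0 1)) :=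
    (isCompact_univ.prod isCompact_Icc).image continuous_tau
  refine ⟨?_⟩
  convert h
  symm
  rw [eq_univ_iff_forall]
  intro p
  obtain ⟨x, t, h0, h1, rfl⟩ := exists_tau p
  exact ⟨(x, t), ⟨mem_univ _, h0, h1⟩, rfl⟩

lemma tau_eq_iff {x y : M} {s t : ℝ} (hs0 : 0 ≤ s) (hs1 : s ≤ 1) (ht0 : 0 ≤ t) (ht1 : t ≤ 1) :
    tau x s = tau y t ↔ s = t ∧ dist x y ≤ 1 - s := by
  rw [← dist_eq_zero, dist_tau hs0 hs1 ht0 ht1]
  constructor
  · intro h
    have h1 : min (min s t) (1 - dist x y) ≤ s := (min_le_left _ _).trans (min_le_left _ _)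
    have h2 : min (min s t) (1 - dist x y) ≤ t := (min_le_left _ _).trans (min_le_right _ _)
    have h3 : min (min s t) (1 - dist x y) ≤ 1 - dist x y := min_le_right _ _
    constructor <;> linarith
  · rintro ⟨rfl, h⟩
    rw [min_self, min_eq_left (by linarith)]
    ring

/-- The segment between heights `a` and `b` below the end `x` is preconnected. -/
lemma isPreconnected_segment (x : M) (a b : ℝ) : IsPreconnected (tau x '' Icc a b) :=
  isPreconnected_Icc.image _ (continuous_tau' x).continuousOn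

lemma tree_preconnected (hle : ∀ x y : M, dist x y ≤ 1) [Nonempty M] :
    ConnectedSpace (Tree M) := by
  obtain ⟨x0⟩ := ‹Nonempty M›
  have h : IsPreconnected (univ : Set (Tree M)) := by
    refine isPreconnected_of_forall (tau x0 0) ?_
    intro p _
    obtain ⟨x, t, h0, h1, rfl⟩ := exists_tau p
    refine ⟨tau x '' Icc 0 1, subset_univ _, ⟨0, ⟨le_rfl, zero_le_one⟩, ?_⟩,
      ⟨t, ⟨h0, h1⟩, rfl⟩, isPreconnected_segment x 0 1⟩
    rw [tau_eq_iff le_rfl zero_le_one le_rfl zero_le_one]
    exact ⟨rfl, by simpa using hle _ _⟩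
  exact { isPreconnected_univ := h, toNonempty := ⟨tau x0 0⟩ }

lemma ball_preconnected (hle : ∀ x y : M, dist x y ≤ 1) (p : Tree M) (ε : ℝ) :
    IsPreconnected (Metric.ball p ε) := by
  refine isPreconnected_of_forall p ?_
  intro q hq
  obtain ⟨x, s, hs0, hs1, rfl⟩ := exists_tau p
  obtain ⟨y, t, ht0, ht1, rfl⟩ := exists_tau q
  have hd : dist x y ≤ 1 := hle x y
  set m : ℝ := min (min s t) (1 - dist x y) with hm
  have hms : m ≤ s := (min_le_left _ _).trans (min_le_left _ _)
  have hmt : m ≤ t := (min_le_left _ _).trans (min_le_right _ _)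
  have hmd : m ≤ 1 - dist x y := min_le_right _ _
  have hm0 : 0 ≤ m := le_min (le_min hs0 ht0) (by linarith)
  have hdist : dist (tau y t) (tau x s) = s + t - 2 * m := by
    rw [dist_comm, dist_tau hs0 hs1 ht0 ht1]
  have hq' : s + t - 2 * m < ε := by rw [← hdist]; exact hq
  refine ⟨tau x '' Icc m s ∪ tau y '' Icc m t, ?_, Or.inl ⟨s, ⟨hms, le_rfl⟩, rfl⟩,
    Or.inr ⟨t, ⟨hmt, le_rfl⟩, rfl⟩, ?_⟩
  · rintro r (⟨u, ⟨hu1, hu2⟩, rfl⟩ | ⟨u, ⟨hu1, hu2⟩, rfl⟩)
    · rw [Metric.mem_ball, dist_tau (hm0.trans hu1) (hu2.trans hs1) hs0 hs1, dist_self,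
        min_eq_left hu2, min_eq_left (by linarith)]
      linarith
    · rw [Metric.mem_ball, dist_tau (hm0.trans hu1) (hu2.trans ht1) hs0 hs1]
      have : m ≤ min (min u s) (1 - dist y x) := by
        rw [dist_comm]
        exact le_min (le_min hu1 hms) hmd
      linarith
  · refine IsPreconnected.union (tau x m) ⟨m, ⟨le_rfl, hms⟩, rfl⟩ ⟨m, ⟨le_rfl, hmt⟩, ?_⟩
      (isPreconnected_segment x m s) (isPreconnected_segment y m t)
    rw [tau_eq_iff hm0 (hmt.trans ht1) hm0 (hmt.trans ht1)]
    exact ⟨rfl, by rw [dist_comm]; linarith⟩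

lemma tree_locallyConnected (hle : ∀ x y : M, dist x y ≤ 1) : LocallyConnectedSpace (Tree M) :=
  locallyConnectedSpace_of_connected_bases (fun p ε => Metric.ball p ε) (fun _ ε => 0 < ε)
    (fun p => Metric.nhds_basis_ball) (fun p ε _ => ball_preconnected hle p ε)


/-- Continuous function which gives the height at which `R` branches off the segment to `P`. -/
noncomputable def mu (x0 : M) (P R : Tree M) : ℝ :=
  (dist R (tau x0 0) + dist P (tau x0 0) - dist R P) / 2

lemma dist_root (hle : ∀ x y : M, dist x y ≤ 1) (x0 y : M) {t : ℝ} (h0 : 0 ≤ t) (h1 : t ≤ 1) :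
    dist (tau y t) (tau x0 0) = t := by
  rw [dist_tau h0 h1 le_rfl zero_le_one, min_eq_right h0]
  have := hle y x0
  rw [min_eq_left (by linarith)]
  ring

lemma mu_tau (hle : ∀ x y : M, dist x y ≤ 1) (x0 x z : M) {s u : ℝ} (hs0 : 0 ≤ s) (hs1 : s ≤ 1)
    (hu0 : 0 ≤ u) (hu1 : u ≤ 1) :
    mu x0 (tau x s) (tau z u) = min (min u s) (1 - dist z x) := by
  unfold mu
  rw [dist_root hle _ _ hs0 hs1, dist_root hle _ _ hu0 hu1, dist_tau hu0 hu1 hs0 hs1]
  ring

lemma continuous_mu (x0 : M) (P : Tree M) : Continuous (mu x0 P) := by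
  unfold mu
  fun_prop

lemma isOpen_above (hle : ∀ x y : M, dist x y ≤ 1) (x0 x : M) {s t : ℝ} (hs0 : 0 ≤ s)
    (hs1 : s ≤ 1) (ht0 : 0 ≤ t) (hts : t ≤ s) :
    IsOpen {R : Tree M | t ≤ mu x0 (tau x s) R ∧ R ≠ tau x t} := by
  rw [Metric.isOpen_iff]
  rintro R ⟨h1, h2⟩
  obtain ⟨z, u, hu0, hu1, rfl⟩ := exists_tau R
  rw [mu_tau hle x0 x z hs0 hs1 hu0 hu1] at h1
  have htu : t ≤ u := h1.trans ((min_le_left _ _).trans (min_le_left _ _))
  have htd : t ≤ 1 - dist z x := h1.trans (min_le_right _ _)
  have hne : t ≠ u := by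
    rintro rfl
    apply h2
    rw [tau_eq_iff hu0 hu1 hu0 hu1]
    exact ⟨rfl, by linarith⟩
  have hlt : t < u := lt_of_le_of_ne htu hne
  refine ⟨u - t, by linarith, ?_⟩
  intro R' hR'
  obtain ⟨z', u', hu0', hu1', rfl⟩ := exists_tau R'
  rw [Metric.mem_ball, dist_tau hu0' hu1' hu0 hu1] at hR'
  set m := min (min u' u) (1 - dist z' z) with hm
  have hm1 : m ≤ u' := (min_le_left _ _).trans (min_le_left _ _)
  have hm2 : m ≤ 1 - dist z' z := min_le_right _ _
  have hu't : t < u' := by linarith
  have hmt : t < m := by linarith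
  refine ⟨?_, ?_⟩
  · rw [mu_tau hle x0 x z' hs0 hs1 hu0' hu1']
    refine le_min (le_min hu't.le hts) ?_
    have h3 := IsUltrametricDist.dist_triangle_max z' z x
    rcases le_max_iff.1 h3 with h | h <;> linarith
  · intro h
    rw [tau_eq_iff hu0' hu1' ht0 (hts.trans hs1)] at h
    linarith [h.1]

lemma tree_noCircle (hle : ∀ x y : M, dist x y ≤ 1) (K : Set (Tree M)) (e : K ≃ₜ Circle) :
    False := by
  have hKc : CompactSpace K := e.symm.compactSpace
  have hK : IsCompact K := isCompact_iff_compactSpace.2 hKc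
  have hne : K.Nonempty := ⟨_, (e.symm 1).2⟩
  obtain ⟨p0, hp0⟩ := hne
  obtain ⟨x0, t0, -, -, -⟩ := exists_tau p0
  obtain ⟨P, hPK, hPmax⟩ := hK.exists_isMaxOn ⟨p0, hp0⟩
    (f := fun R : Tree M => dist R (tau x0 0)) (by fun_prop)
  obtain ⟨x, s, hs0, hs1, rfl⟩ := exists_tau P
  -- another point of `K`
  obtain ⟨Q, hQK, hQP⟩ : ∃ Q ∈ K, Q ≠ tau x s := by
    by_contra hcon
    push Not at hcon
    have hsub : Subsingleton K := ⟨fun a b => Subtype.ext ((hcon a a.2).trans (hcon b b.2).symm)⟩
    have h1 : e.symm 1 = e.symm (-1) := Subsingleton.elim _ _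
    have h2 : (1 : Circle) = -1 := e.symm.injective h1
    have h3 : ((1 : Circle) : ℂ) = ((-1 : Circle) : ℂ) := by rw [← h2]
    simp at h3
    norm_num [Complex.ext_iff] at h3
  obtain ⟨y, t, ht0, ht1, rfl⟩ := exists_tau Q
  have hts : t ≤ s := by
    have := hPmax hQK
    simpa [dist_root hle x0 _ ht0 ht1, dist_root hle x0 _ hs0 hs1] using this
  set m : ℝ := min (min t s) (1 - dist y x) with hm
  have hmt : m ≤ t := (min_le_left _ _).trans (min_le_left _ _)
  have hmd : m ≤ 1 - dist y x := min_le_right _ _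
  have hm0 : 0 ≤ m := le_min (le_min ht0 hs0) (by linarith [hle y x])
  have hms : m < s := by
    by_contra hcon
    push Not at hcon
    apply hQP
    rw [tau_eq_iff ht0 ht1 hs0 hs1]
    constructor <;> linarith
  obtain ⟨t', ht'1, ht'2⟩ := exists_between hms
  have hK' : IsPreconnected (K \ {tau x t'}) := by
    have himg : K \ {tau x t'} =
        (fun z : Circle => ((e.symm z : K) : Tree M)) ''
          {z : Circle | ((e.symm z : K) : Tree M) ≠ tau x t'} := by
      ext R
      simp only [Set.mem_sdiff, mem_singleton_iff, mem_image, mem_ofPred_eq]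
      constructor
      · rintro ⟨h1, h2⟩
        exact ⟨e ⟨R, h1⟩, by simpa using h2, by simp⟩
      · rintro ⟨z, h1, rfl⟩
        exact ⟨(e.symm z).2, h1⟩
    rw [himg]
    refine IsPreconnected.image ?_ _
      (continuous_subtype_val.comp e.symm.continuous).continuousOn
    by_cases hmem : tau x t' ∈ K
    · have : {z : Circle | ((e.symm z : K) : Tree M) ≠ tau x t'} = {e ⟨tau x t', hmem⟩}ᶜ := by
        ext z
        simp only [mem_ofPred_eq, mem_compl_iff, mem_singleton_iff]
        constructor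
        · rintro h rfl
          simp at h
        · intro h h1
          apply h
          have : e.symm z = ⟨tau x t', hmem⟩ := Subtype.ext h1
          rw [← this]; simp
      rw [this]
      exact circle_compl_singleton_preconnected _
    · have : {z : Circle | ((e.symm z : K) : Tree M) ≠ tau x t'} = univ := by
        ext z
        simp only [mem_ofPred_eq, mem_univ, iff_true]
        rintro h
        exact hmem (h ▸ (e.symm z).2)
      rw [this]
      exact isPreconnected_univ
  have ht'0 : 0 ≤ t' := hm0.trans ht'1.le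
  have hU := isOpen_above hle x0 x hs0 hs1 ht'0 ht'2.le
  have hV : IsOpen {R : Tree M | mu x0 (tau x s) R < t'} :=
    isOpen_lt (continuous_mu x0 _) continuous_const
  obtain ⟨R, -, hR1, hR2⟩ := hK' _ _ hU hV
    (by
      rintro R ⟨-, hR⟩
      rcases lt_or_ge (mu x0 (tau x s) R) t' with h | h
      · exact Or.inr h
      · exact Or.inl ⟨h, hR⟩)
    ⟨tau x s, ⟨hPK, by
        intro h
        rw [mem_singleton_iff, tau_eq_iff hs0 hs1 ht'0 (ht'2.le.trans hs1)] at h
        linarith [h.1]⟩, by
        rw [mem_ofPred_eq, mu_tau hle x0 x x hs0 hs1 hs0 hs1]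
        refine ⟨?_, ?_⟩
        · rw [dist_self, min_self, sub_zero, min_eq_left hs1]
          exact ht'2.le
        · intro h
          rw [tau_eq_iff hs0 hs1 ht'0 (ht'2.le.trans hs1)] at h
          linarith [h.1]⟩
    ⟨tau y t, ⟨hQK, by
        intro h
        rw [mem_singleton_iff, tau_eq_iff ht0 ht1 ht'0 (ht'2.le.trans hs1)] at h
        obtain ⟨h1, h2⟩ := h
        have : t' ≤ m := le_min (le_min h1.ge ht'2.le) (by linarith)
        linarith⟩, by
        rw [mem_ofPred_eq, mu_tau hle x0 x y hs0 hs1 ht0 ht1]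
        exact ht'1⟩
  exact absurd hR2 (not_lt.2 hR1.1)

end TreeSec



/-! ## Part 2: a generalised Morse sequence -/

/-- The periods `q k`. -/
def q : ℕ → ℕ
  | 0 => 1
  | (k + 1) => q k * 2 ^ (k + 3)

lemma q_pos (k : ℕ) : 0 < q k := by
  induction k with
  | zero => exact Nat.one_pos
  | succ k ih => exact Nat.mul_pos ih (by positivity)

instance (k : ℕ) : NeZero (q k) := ⟨(q_pos k).ne'⟩

lemma q_dvd_succ (k : ℕ) : q k ∣ q (k + 1) := ⟨2 ^ (k + 3), rfl⟩

lemma q_dvd {i j : ℕ} (h : i ≤ j) : q i ∣ q j := by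
  induction j, h using Nat.le_induction with
  | base => exact dvd_rfl
  | succ n _ ih => exact ih.trans (q_dvd_succ n)

lemma q_le {i j : ℕ} (h : i ≤ j) : q i ≤ q j := Nat.le_of_dvd (q_pos j) (q_dvd h)

lemma lt_q (k : ℕ) : k < q k := by
  induction k with
  | zero => exact Nat.one_pos
  | succ k ih =>
    show k + 1 < q k * 2 ^ (k + 3)
    have h1 : 2 ≤ 2 ^ (k + 3) := by
      calc 2 = 2 ^ 1 := rfl
        _ ≤ 2 ^ (k + 3) := Nat.pow_le_pow_right (by norm_num) (by omega)
    calc k + 1 < q k * 2 := by omega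
      _ ≤ q k * 2 ^ (k + 3) := Nat.mul_le_mul_left _ h1

/-- Indicator of the event that the `k`-th digit of `n` is not zero. -/
def dg (k n : ℕ) : ZMod 2 := if (n / q k) % 2 ^ (k + 3) = 0 then 0 else 1

/-- Parity of the number of nonzero digits among the first `K` ones. -/
def W (K n : ℕ) : ZMod 2 := ∑ k ∈ Finset.range K, dg k n

/-- The generalised Morse sequence: parity of the number of nonzero digits of `n`. -/
def S (n : ℕ) : ZMod 2 := W n n

lemma dg_of_lt {k n : ℕ} (h : n < q k) : dg k n = 0 := by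
  unfold dg
  rw [Nat.div_eq_of_lt h]
  simp

lemma W_of_lt {K K' n : ℕ} (h : n < q K) (hK : K ≤ K') : W K' n = W K n := by
  induction K', hK using Nat.le_induction with
  | base => rfl
  | succ m hm ih =>
    unfold W at *
    rw [Finset.sum_range_succ, ih, dg_of_lt (h.trans_le (q_le hm)), add_zero]

lemma S_eq_W {K n : ℕ} (h : n < q K) : S n = W K n := by
  unfold S
  rcases le_total n K with h1 | h1
  · exact (W_of_lt (lt_q n) h1).symm
  · exact W_of_lt h h1

lemma dg_low {k K a s : ℕ} (h : k < K) : dg k (a * q K + s) = dg k s := by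
  obtain ⟨t, ht⟩ := q_dvd (Nat.succ_le_of_lt h)
  unfold dg
  have h1 : a * q K + s = s + q k * (2 ^ (k + 3) * (t * a)) := by
    rw [ht]
    show a * (q k * 2 ^ (k + 3) * t) + s = _
    ring
  rw [h1, Nat.add_mul_div_left _ _ (q_pos k), Nat.add_mul_mod_self_left]

lemma dg_high {k i a s : ℕ} (h : k ≤ i) (hs : s < q k) : dg i (a * q k + s) = dg i (a * q k) := by
  obtain ⟨t, ht⟩ := q_dvd h
  unfold dg
  have h1 : (a * q k + s) / q i = a * q k / q i := by
    rw [ht, ← Nat.div_div_eq_div_mul, ← Nat.div_div_eq_div_mul,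
      Nat.mul_div_cancel _ (q_pos k), add_comm, Nat.add_mul_div_right _ _ (q_pos k),
      Nat.div_eq_of_lt hs, zero_add]
  rw [h1]

lemma W_low (K a s : ℕ) : W K (a * q K + s) = W K s := by
  unfold W
  exact Finset.sum_congr rfl fun k hk => dg_low (Finset.mem_range.1 hk)

lemma W_zero (K : ℕ) : W K 0 = 0 := by
  unfold W
  exact Finset.sum_eq_zero fun k _ => dg_of_lt (q_pos k)

lemma S_zero : S 0 = 0 := rfl

lemma W_split {k K n : ℕ} (h : k ≤ K) : W K n = W k n + ∑ i ∈ Finset.Ico k K, dg i n := by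
  unfold W
  rw [Finset.sum_range_add_sum_Ico _ h]

/-- Block structure of the sequence. -/
lemma S_block {k a s : ℕ} (hs : s < q k) : S (a * q k + s) = S (a * q k) + S s := by
  set K := max k (a * q k + s) with hK
  have hk : k ≤ K := le_max_left _ _
  have h1 : a * q k + s < q K := (lt_q _).trans_le (q_le (le_max_right _ _))
  have h2 : a * q k < q K := lt_of_le_of_lt (Nat.le_add_right _ _) h1
  rw [S_eq_W h1, S_eq_W h2, S_eq_W hs, W_split hk, W_split hk, W_low]
  have h3 : W k (a * q k) = 0 := by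
    have := W_low k a 0
    rw [add_zero] at this
    rw [this, W_zero]
  rw [h3, zero_add, add_comm]
  congr 1
  refine Finset.sum_congr rfl fun i hi => ?_
  exact dg_high (Finset.mem_Ico.1 hi).1 hs

lemma S_mul {K d : ℕ} (h1 : 1 ≤ d) (h2 : d < 2 ^ (K + 3)) : S (d * q K) = 1 := by
  have h3 : d * q K < q (K + 1) := by
    show d * q K < q K * 2 ^ (K + 3)
    rw [mul_comm]
    exact Nat.mul_lt_mul_of_pos_left h2 (q_pos K)
  rw [S_eq_W h3]
  unfold W
  rw [Finset.sum_range_succ]
  have h4 : ∑ k ∈ Finset.range K, dg k (d * q K) = 0 := by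
    have := W_low K d 0
    rw [add_zero, W_zero] at this
    exact this
  rw [h4, zero_add]
  unfold dg
  rw [Nat.mul_div_cancel _ (q_pos K), Nat.mod_eq_of_lt h2, if_neg (by omega)]

/-- Number of `n < q K` with `S n = K mod 2`. -/
def cnt (K : ℕ) : ℕ := ((Finset.range (q K)).filter (fun n => S n = (K : ZMod 2))).card

lemma cnt_succ (K : ℕ) : (2 ^ (K + 3) - 1) * cnt K ≤ cnt (K + 1) := by
  unfold cnt
  have h1 : (2 ^ (K + 3) - 1) = (Finset.Ico 1 (2 ^ (K + 3))).card := by simp
  rw [h1, ← Finset.card_product]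
  refine Finset.card_le_card_of_injOn (fun p => p.1 * q K + p.2) ?_ ?_
  · rintro ⟨d, n⟩ hp
    simp only [Finset.coe_product, Set.mem_prod, Finset.coe_Ico, Set.mem_Ico, Finset.coe_filter,
      Finset.mem_range, Set.mem_ofPred_eq] at hp
    obtain ⟨⟨hd1, hd2⟩, hn, hS⟩ := hp
    simp only [Finset.coe_filter, Finset.mem_range, Set.mem_ofPred_eq]
    constructor
    · show d * q K + n < q K * 2 ^ (K + 3)
      calc d * q K + n < d * q K + q K := by omega
        _ = q K * (d + 1) := by ring
        _ ≤ q K * 2 ^ (K + 3) := Nat.mul_le_mul_left _ hd2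
    · rw [S_block hn, S_mul hd1 hd2, hS]
      push_cast
      ring
  · rintro ⟨d, n⟩ hp ⟨d', n'⟩ hp' heq
    simp only [Finset.coe_product, Set.mem_prod, Finset.coe_Ico, Set.mem_Ico, Finset.coe_filter,
      Finset.mem_range, Set.mem_ofPred_eq] at hp hp' heq
    obtain ⟨-, hn, -⟩ := hp
    obtain ⟨-, hn', -⟩ := hp'
    have e1 : (d * q K + n) / q K = d := by
      rw [add_comm, Nat.add_mul_div_right _ _ (q_pos K), Nat.div_eq_of_lt hn, zero_add]
    have e2 : (d' * q K + n') / q K = d' := by
      rw [add_comm, Nat.add_mul_div_right _ _ (q_pos K), Nat.div_eq_of_lt hn', zero_add]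
    have e3 : d = d' := by rw [← e1, ← e2, heq]
    subst e3
    have e4 : n = n' := by omega
    rw [e4]

lemma cnt_bound (K : ℕ) : (q K : ℝ) * (3 / 4 + (1 / 2) ^ (K + 2)) ≤ cnt K := by
  induction K with
  | zero =>
    have : cnt 0 = 1 := by decide
    rw [this]
    norm_num [q]
  | succ K ih =>
    have h1 : (((2 ^ (K + 3) - 1) * cnt K : ℕ) : ℝ) ≤ cnt (K + 1) := by
      exact_mod_cast cnt_succ K
    have h2 : 1 ≤ 2 ^ (K + 3) := Nat.one_le_two_pow
    rw [Nat.cast_mul, Nat.cast_sub h2] at h1
    push_cast at h1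
    refine le_trans ?_ h1
    have h3 : ((q (K + 1) : ℕ) : ℝ) = q K * 2 ^ (K + 3) := by
      show ((q K * 2 ^ (K + 3) : ℕ) : ℝ) = _
      push_cast
      ring
    rw [h3]
    have h4 : (1 : ℝ) ≤ 2 ^ (K + 3) := one_le_pow₀ (by norm_num)
    have h5 : (2 ^ (K + 3) - 1) * ((q K : ℝ) * (3 / 4 + (1 / 2) ^ (K + 2)))
        ≤ (2 ^ (K + 3) - 1) * (cnt K : ℝ) :=
      mul_le_mul_of_nonneg_left ih (by linarith)
    refine le_trans ?_ h5
    have h6 : (2 : ℝ) ^ (K + 3) * (1 / 2) ^ (K + 3) = 1 := by
      rw [← mul_pow]; norm_num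
    have h7 : (1 / 2 : ℝ) ^ (K + 3) = (1 / 2) * (1 / 2) ^ (K + 2) := by
      rw [pow_succ]; ring
    have h8 : (0 : ℝ) < q K := by exact_mod_cast q_pos K
    have h9 : (1 / 2 : ℝ) ^ (K + 2) ≤ 1 / 4 := by
      have : (1 / 2 : ℝ) ^ (K + 2) ≤ (1 / 2) ^ 2 :=
        pow_le_pow_of_le_one (by norm_num) (by norm_num) (by omega)
      linarith [this, (by norm_num : (1 / 2 : ℝ) ^ 2 = 1 / 4)]
    have h10 : (0 : ℝ) < (1 / 2) ^ (K + 2) := by positivity
    have h11 : (2 : ℝ) ^ (K + 3) * (1 / 2) ^ (K + 2) = 2 := by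
      rw [h7] at h6; linarith
    have key : (2 : ℝ) ^ (K + 3) * (3 / 4 + (1 / 2) ^ (K + 1 + 2)) ≤
        (2 ^ (K + 3) - 1) * (3 / 4 + (1 / 2) ^ (K + 2)) := by
      have e : (1 / 2 : ℝ) ^ (K + 1 + 2) = (1 / 2) ^ (K + 3) := by congr 1
      rw [e]
      nlinarith
    calc (q K : ℝ) * 2 ^ (K + 3) * (3 / 4 + (1 / 2) ^ (K + 1 + 2))
        = q K * (2 ^ (K + 3) * (3 / 4 + (1 / 2) ^ (K + 1 + 2))) := by ring
      _ ≤ q K * ((2 ^ (K + 3) - 1) * (3 / 4 + (1 / 2) ^ (K + 2))) :=
          mul_le_mul_of_nonneg_left key h8.le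
      _ = _ := by ring

lemma cnt_ge (K : ℕ) : (3 / 4 : ℝ) * q K ≤ cnt K := by
  have h1 := cnt_bound K
  have h2 : (0 : ℝ) < (1 / 2) ^ (K + 2) := by positivity
  have h3 : (0 : ℝ) < q K := by exact_mod_cast q_pos K
  nlinarith


/-! ## Part 3: the zero-dimensional system -/

/-- Value of the increment of the sequence as read off from the residue modulo `q k`. -/
def F (k : ℕ) (s : ZMod (q k)) : ZMod 2 := S (s.val + 1) - S s.val

/-- A point of the zero-dimensional system: a parameter `c`, a family of residues `r`,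
and a sequence `g` whose increments are those prescribed by `r`. -/
structure Leaf where
  c : ℕ → Bool
  r : (k : ℕ) → ZMod (q k)
  g : ℕ → ZMod 2
  compat : ∀ n k : ℕ, r k + ((n : ZMod (q k)) + 1) ≠ 0 → g (n + 1) - g n = F k (r k + n)

namespace Leaf

/-- All coordinates of a point as a sequence in finite sets. -/
def code (x : Leaf) : (n : ℕ) → Bool × ZMod (q n) × ZMod 2 := fun n => (x.c n, x.r n, x.g n)

lemma code_injective : Function.Injective code := by
  intro x y h
  have h1 : x.c = y.c := funext fun n => congrArg Prod.fst (congrFun h n)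
  have h2 : x.r = y.r := funext fun n => congrArg (fun p => p.2.1) (congrFun h n)
  have h3 : x.g = y.g := funext fun n => congrArg (fun p => p.2.2) (congrFun h n)
  cases x; cases y
  simp_all

/-- The combinatorial distance. -/
noncomputable def d0 (x y : Leaf) : ℝ := (PiNat.dist (E := fun n => Bool × ZMod (q n) × ZMod 2)).dist x.code y.code

/-- Scaling weight. -/
noncomputable def wt (a : ZMod 2) : ℝ := if a = 0 then 1 / 2 else 1

lemma wt_pos (a : ZMod 2) : 0 < wt a := by unfold wt; split_ifs <;> norm_num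
lemma wt_le (a : ZMod 2) : wt a ≤ 1 := by unfold wt; split_ifs <;> norm_num
lemma half_le_wt (a : ZMod 2) : 1 / 2 ≤ wt a := by unfold wt; split_ifs <;> norm_num

lemma d0_self (x : Leaf) : d0 x x = 0 := PiNat.dist_self _
lemma d0_comm (x y : Leaf) : d0 x y = d0 y x := PiNat.dist_comm _ _
lemma d0_nonneg (x y : Leaf) : 0 ≤ d0 x y := PiNat.dist_nonneg _ _
lemma d0_le_one (x y : Leaf) : d0 x y ≤ 1 := PiNat.dist_le_one _ _
lemma d0_nonarch (x y z : Leaf) : d0 x z ≤ max (d0 x y) (d0 y z) :=
  PiNat.dist_triangle_nonarch _ _ _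
lemma eq_of_d0 {x y : Leaf} (h : d0 x y = 0) : x = y :=
  code_injective (PiNat.eq_of_dist_eq_zero _ _ h)

/-- The ultrametric. -/
noncomputable def D (x y : Leaf) : ℝ := if x.g 0 = y.g 0 then wt (x.g 0) * d0 x y else 1

lemma d0_eq_one {x y : Leaf} (h : x.g 0 ≠ y.g 0) : d0 x y = 1 := by
  unfold d0
  have hne : x.code ≠ y.code := fun h' => h (congrArg (fun p => p.2.2) (congrFun h' 0))
  rw [PiNat.dist_eq_of_ne hne]
  have : PiNat.firstDiff x.code y.code = 0 := by
    by_contra hcon
    have := PiNat.apply_eq_of_lt_firstDiff (x := x.code) (y := y.code) (n := 0)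
      (Nat.pos_of_ne_zero hcon)
    exact h (congrArg (fun p => p.2.2) this)
  rw [this]
  norm_num

lemma D_le (x y : Leaf) : D x y ≤ d0 x y := by
  unfold D
  split_ifs with h
  · exact mul_le_of_le_one_left (d0_nonneg _ _) (wt_le _)
  · exact (d0_eq_one h).ge

lemma le_D (x y : Leaf) : d0 x y ≤ 2 * D x y := by
  unfold D
  split_ifs with h
  · have h1 := half_le_wt (x.g 0)
    have h2 := d0_nonneg x y
    nlinarith
  · have := d0_le_one x y
    linarith

lemma D_nonneg (x y : Leaf) : 0 ≤ D x y := by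
  have h1 := le_D x y
  have h2 := d0_nonneg x y
  linarith

lemma D_le_one (x y : Leaf) : D x y ≤ 1 := (D_le x y).trans (d0_le_one x y)

lemma D_nonarch (x y z : Leaf) : D x z ≤ max (D x y) (D y z) := by
  by_cases h1 : x.g 0 = y.g 0
  · by_cases h2 : y.g 0 = z.g 0
    · have h3 : x.g 0 = z.g 0 := h1.trans h2
      unfold D
      rw [if_pos h1, if_pos h2, if_pos h3, ← h1, ← mul_max_of_nonneg _ _ (wt_pos _).le]
      exact mul_le_mul_of_nonneg_left (d0_nonarch x y z) (wt_pos _).le
    · have : D y z = 1 := by unfold D; rw [if_neg h2]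
      rw [this]
      exact (D_le_one x z).trans (le_max_right _ _)
  · have : D x y = 1 := by unfold D; rw [if_neg h1]
    rw [this]
    exact (D_le_one x z).trans (le_max_left _ _)

noncomputable instance : MetricSpace Leaf where
  dist := D
  dist_self x := by
    show D x x = 0
    unfold D
    rw [if_pos rfl, d0_self, mul_zero]
  dist_comm x y := by
    show D x y = D y x
    unfold D
    by_cases h : x.g 0 = y.g 0
    · rw [if_pos h, if_pos h.symm, h, d0_comm]
    · rw [if_neg h, if_neg (Ne.symm h)]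
  dist_triangle x y z := (D_nonarch x y z).trans (max_le_add_of_nonneg (D_nonneg _ _) (D_nonneg _ _))
  eq_of_dist_eq_zero {x y} h := by
    apply eq_of_d0
    have h1 := le_D x y
    have h2 := d0_nonneg x y
    have h3 : D x y = 0 := h
    linarith

lemma dist_def (x y : Leaf) : dist x y = D x y := rfl

instance : IsUltrametricDist Leaf := ⟨D_nonarch⟩

/-- The closed set of admissible codes. -/
def codes : Set ((n : ℕ) → Bool × ZMod (q n) × ZMod 2) :=
  {p | ∀ n k : ℕ, (p k).2.1 + ((n : ZMod (q k)) + 1) ≠ 0 →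
    (p (n + 1)).2.2 - (p n).2.2 = F k ((p k).2.1 + n)}

lemma isClosed_codes : IsClosed codes := by
  unfold codes
  rw [Set.ofPred_forall]
  refine isClosed_iInter fun n => ?_
  rw [Set.ofPred_forall]
  refine isClosed_iInter fun k => ?_
  have hc1 : Continuous (fun p : (n : ℕ) → Bool × ZMod (q n) × ZMod 2 =>
      ((p k).2.1, ((p (n + 1)).2.2, (p n).2.2))) := by fun_prop
  have hS : IsClosed {t : ZMod (q k) × ZMod 2 × ZMod 2 |
      t.1 + ((n : ZMod (q k)) + 1) ≠ 0 → t.2.1 - t.2.2 = F k (t.1 + n)} := isClosed_discrete _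
  exact hS.preimage hc1

/-- The point with a given admissible code. -/
def ofCode (p : codes) : Leaf where
  c := fun n => (p.1 n).1
  r := fun n => (p.1 n).2.1
  g := fun n => (p.1 n).2.2
  compat := fun n k h => p.2 n k h

lemma code_ofCode (p : codes) : (ofCode p).code = p.1 := rfl

lemma ofCode_surjective : Function.Surjective ofCode := by
  intro x
  refine ⟨⟨x.code, fun n k h => x.compat n k h⟩, ?_⟩
  apply code_injective
  rfl

lemma continuous_ofCode : Continuous ofCode := by
  rw [Metric.continuous_iff']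
  intro p ε hε
  obtain ⟨n, hn⟩ : ∃ n : ℕ, (1 / 2 : ℝ) ^ n < ε := exists_pow_lt_of_lt_one hε one_half_lt_one
  have h1 : IsOpen (Subtype.val ⁻¹' PiNat.cylinder p.1 n : Set codes) :=
    (PiNat.isOpen_cylinder _ p.1 n).preimage continuous_subtype_val
  filter_upwards [h1.mem_nhds (PiNat.self_mem_cylinder p.1 n)] with y hy
  rw [dist_def]
  refine (D_le _ _).trans_lt (lt_of_le_of_lt ?_ hn)
  exact PiNat.mem_cylinder_iff_dist_le.1 hy

instance : CompactSpace Leaf := by
  have : CompactSpace codes := isCompact_iff_compactSpace.1 isClosed_codes.isCompact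
  refine ⟨?_⟩
  have h := isCompact_range continuous_ofCode
  rwa [ofCode_surjective.range_eq] at h

/-- The map on the zero-dimensional space. -/
def T (x : Leaf) : Leaf where
  c := x.c
  r := fun k => x.r k + 1
  g := fun n => x.g (n + 1)
  compat := by
    intro n k h
    have h1 := x.compat (n + 1) k (by
      intro h2
      apply h
      rw [← h2]
      push_cast
      ring)
    rw [h1]
    congr 1
    push_cast
    ring

lemma T_iter_c (x : Leaf) (k : ℕ) : (T^[k] x).c = x.c := by
  induction k with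
  | zero => rfl
  | succ k ih => rw [Function.iterate_succ_apply']; exact ih

lemma T_iter_r (x : Leaf) (k j : ℕ) : (T^[k] x).r j = x.r j + k := by
  induction k with
  | zero => simp
  | succ k ih =>
    rw [Function.iterate_succ_apply']
    show (T^[k] x).r j + 1 = _
    rw [ih]
    push_cast
    ring

lemma T_iter_g (x : Leaf) (k n : ℕ) : (T^[k] x).g n = x.g (n + k) := by
  induction k generalizing n with
  | zero => rfl
  | succ k ih =>
    rw [Function.iterate_succ_apply']
    show (T^[k] x).g (n + 1) = _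
    rw [ih]
    congr 1
    ring

lemma d0_T (x y : Leaf) : d0 (T x) (T y) ≤ 2 * d0 x y := by
  rcases eq_or_ne x y with rfl | hne
  · rw [d0_self, d0_self, mul_zero]
  have hc : x.code ≠ y.code := fun h => hne (code_injective h)
  have h1 : d0 x y = (1 / 2 : ℝ) ^ PiNat.firstDiff x.code y.code := PiNat.dist_eq_of_ne hc
  rcases Nat.eq_zero_or_pos (PiNat.firstDiff x.code y.code) with h0 | hpos
  · rw [h1, h0]
    have := d0_le_one (T x) (T y)
    norm_num
    linarith
  · obtain ⟨N, hN⟩ : ∃ N, PiNat.firstDiff x.code y.code = N + 1 :=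
      ⟨_, (Nat.succ_pred_eq_of_pos hpos).symm⟩
    have h2 : (T x).code ∈ PiNat.cylinder (T y).code N := by
      intro i hi
      have h3 := PiNat.apply_eq_of_lt_firstDiff (x := x.code) (y := y.code) (n := i) (by omega)
      have h4 := PiNat.apply_eq_of_lt_firstDiff (x := x.code) (y := y.code) (n := i + 1) (by omega)
      have h5 : x.c i = y.c i := congrArg Prod.fst h3
      have h6 : x.r i = y.r i := congrArg (fun p => p.2.1) h3
      have h7 : x.g (i + 1) = y.g (i + 1) := congrArg (fun p => p.2.2) h4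
      show (x.c i, x.r i + 1, x.g (i + 1)) = (y.c i, y.r i + 1, y.g (i + 1))
      rw [h5, h6, h7]
    have h3 : d0 (T x) (T y) ≤ (1 / 2) ^ N := PiNat.mem_cylinder_iff_dist_le.1 h2
    rw [h1, hN, pow_succ]
    linarith

lemma dist_T (x y : Leaf) : dist (T x) (T y) ≤ 4 * dist x y := by
  rw [dist_def, dist_def]
  have h1 := D_le (T x) (T y)
  have h2 := d0_T x y
  have h3 := le_D x y
  linarith

lemma d0_ge {x y : Leaf} {j : ℕ} (h : x.code j ≠ y.code j) : (1 / 2 : ℝ) ^ j ≤ d0 x y := by
  have hc : x.code ≠ y.code := fun h' => h (congrFun h' j)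
  have h1 : d0 x y = (1 / 2 : ℝ) ^ PiNat.firstDiff x.code y.code := PiNat.dist_eq_of_ne hc
  rw [h1]
  refine pow_le_pow_of_le_one (by norm_num) (by norm_num) ?_
  by_contra hcon
  push Not at hcon
  exact h (PiNat.apply_eq_of_lt_firstDiff hcon)

/-- Two points are eventually equal or eventually far apart. -/
lemma dichotomy (x y : Leaf) :
    (∃ N, ∀ k, N ≤ k → T^[k] x = T^[k] y) ∨
      ∃ ε : ℝ, 0 < ε ∧ ∃ N, ∀ k, N ≤ k → ε ≤ dist (T^[k] x) (T^[k] y) := by
  by_cases hc : x.c = y.c
  swap
  · right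
    obtain ⟨j, hj⟩ := Function.ne_iff.1 hc
    refine ⟨(1 / 2) ^ (j + 1), by positivity, 0, fun k _ => ?_⟩
    have h1 : (T^[k] x).code j ≠ (T^[k] y).code j := by
      intro h
      have h2 : (T^[k] x).c j = (T^[k] y).c j := congrArg Prod.fst h
      rw [T_iter_c, T_iter_c] at h2
      exact hj h2
    have h2 := d0_ge h1
    have h3 := le_D (T^[k] x) (T^[k] y)
    rw [dist_def, pow_succ]
    linarith
  by_cases hr : x.r = y.r
  swap
  · right
    obtain ⟨j, hj⟩ := Function.ne_iff.1 hr
    refine ⟨(1 / 2) ^ (j + 1), by positivity, 0, fun k _ => ?_⟩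
    have h1 : (T^[k] x).code j ≠ (T^[k] y).code j := by
      intro h
      have h2 : (T^[k] x).r j = (T^[k] y).r j := congrArg (fun p => p.2.1) h
      rw [T_iter_r, T_iter_r] at h2
      exact hj (add_right_cancel h2)
    have h2 := d0_ge h1
    have h3 := le_D (T^[k] x) (T^[k] y)
    rw [dist_def, pow_succ]
    linarith
  -- same parameter and residues
  obtain ⟨N, hN⟩ : ∃ N, ∀ n, N ≤ n → x.g (n + 1) - x.g n = y.g (n + 1) - y.g n := by
    by_cases hex : ∃ n1 : ℕ, ∀ k, x.r k + ((n1 : ZMod (q k)) + 1) = 0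
    · obtain ⟨n1, hn1⟩ := hex
      refine ⟨n1 + 1, fun n hn => ?_⟩
      have hk : x.r (n - n1) + ((n : ZMod (q (n - n1))) + 1) ≠ 0 := by
        intro h
        have h1 := hn1 (n - n1)
        have h2 : ((n : ZMod (q (n - n1)))) = n1 := by
          have := h.trans h1.symm
          have h3 := add_left_cancel this
          exact add_right_cancel h3
        rw [ZMod.natCast_eq_natCast_iff'] at h2
        have h4 : n = n1 + (n - n1) := by omega
        have h5 : n ≡ n1 [MOD q (n - n1)] := h2
        have h6 : n - n1 < q (n - n1) := lt_q _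
        have h7 := (Nat.modEq_iff_dvd' (by omega : n1 ≤ n)).1 h5.symm
        have h8 := Nat.le_of_dvd (by omega) h7
        omega
      have hk' : y.r (n - n1) + ((n : ZMod (q (n - n1))) + 1) ≠ 0 := by rwa [← hr]
      rw [x.compat n _ hk, y.compat n _ hk', hr]
    · push Not at hex
      refine ⟨0, fun n _ => ?_⟩
      obtain ⟨k, hk⟩ := hex n
      have hk' : y.r k + ((n : ZMod (q k)) + 1) ≠ 0 := by rwa [← hr]
      rw [x.compat n _ hk, y.compat n _ hk', hr]
  have hconst : ∀ n, N ≤ n → x.g n - y.g n = x.g N - y.g N := by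
    intro n hn
    induction n, hn using Nat.le_induction with
    | base => rfl
    | succ m hm ih =>
      have := hN m hm
      rw [← ih]
      linear_combination this
  by_cases h0 : x.g N = y.g N
  · left
    refine ⟨N, fun k hk => ?_⟩
    apply code_injective
    funext n
    show ((T^[k] x).c n, (T^[k] x).r n, (T^[k] x).g n) = ((T^[k] y).c n, (T^[k] y).r n, (T^[k] y).g n)
    rw [T_iter_c, T_iter_c, T_iter_r, T_iter_r, T_iter_g, T_iter_g, hc, hr]
    have h1 := hconst (n + k) (by omega)
    rw [h0, sub_self, sub_eq_zero] at h1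
    rw [h1]
  · right
    refine ⟨1, one_pos, N, fun k hk => ?_⟩
    rw [dist_def]
    unfold D
    rw [if_neg]
    rw [T_iter_g, T_iter_g]
    have h1 := hconst (0 + k) (by omega)
    intro h2
    rw [h2, sub_self] at h1
    exact h0 (sub_eq_zero.1 h1.symm)

/-- The base points. -/
def base (c : ℕ → Bool) : Leaf where
  c := c
  r := fun _ => 0
  g := S
  compat := by
    intro n k h
    rw [zero_add] at h
    have hpos := q_pos k
    set s := n % q k with hs
    have hval : ((0 : ZMod (q k)) + (n : ZMod (q k))).val = s := by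
      rw [zero_add, ZMod.val_natCast]
    unfold F
    rw [hval]
    have hs1 : s < q k := Nat.mod_lt _ hpos
    have hs2 : s + 1 < q k := by
      by_contra hcon
      have h1 : s + 1 = q k := by omega
      apply h
      have h2 : ((n + 1 : ℕ) : ZMod (q k)) = 0 := by
        rw [ZMod.natCast_eq_zero_iff]
        have h3 : n + 1 = (n / q k + 1) * q k := by
          have := Nat.div_add_mod n (q k)
          calc n + 1 = q k * (n / q k) + n % q k + 1 := by rw [this]
            _ = q k * (n / q k) + (s + 1) := by rw [hs]; ring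
            _ = (n / q k + 1) * q k := by rw [h1]; ring
        exact ⟨n / q k + 1, by rw [h3]; ring⟩
      push_cast at h2
      exact h2
    have h3 : n = n / q k * q k + s := by
      rw [hs, mul_comm]
      exact (Nat.div_add_mod n (q k)).symm
    have e1 : S n = S (n / q k * q k) + S s := by
      conv_lhs => rw [h3]
      exact S_block hs1
    have e2 : S (n + 1) = S (n / q k * q k) + S (s + 1) := by
      conv_lhs => rw [h3]
      rw [add_assoc]
      exact S_block hs2
    rw [e1, e2]
    ring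

/-- Distance between iterates of base points. -/
lemma dist_base (c c' : ℕ → Bool) (k : ℕ) :
    dist (T^[k] (base c)) (T^[k] (base c')) = wt (S k) * d0 (base c) (base c') := by
  rw [dist_def]
  unfold D
  have h1 : (T^[k] (base c)).g 0 = S k := by
    rw [T_iter_g, zero_add]; rfl
  have h2 : (T^[k] (base c')).g 0 = S k := by
    rw [T_iter_g, zero_add]; rfl
  rw [if_pos (by rw [h1, h2]), h1]
  congr 1
  rcases eq_or_ne c c' with rfl | hne
  · rw [d0_self, d0_self]
  have hb : (base c).code ≠ (base c').code := by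
    intro h
    exact hne (funext fun n => congrArg Prod.fst (congrFun h n))
  have hb' : (T^[k] (base c)).code ≠ (T^[k] (base c')).code := by
    intro h
    apply hne
    funext n
    have : (T^[k] (base c)).c n = (T^[k] (base c')).c n := congrArg Prod.fst (congrFun h n)
    rw [T_iter_c, T_iter_c] at this
    exact this
  have key : ∀ n, (T^[k] (base c)).code n = (T^[k] (base c')).code n ↔
      (base c).code n = (base c').code n := by
    intro n
    show ((T^[k] (base c)).c n, (T^[k] (base c)).r n, (T^[k] (base c)).g n) =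
      ((T^[k] (base c')).c n, (T^[k] (base c')).r n, (T^[k] (base c')).g n) ↔
      (c n, (0 : ZMod (q n)), S n) = (c' n, (0 : ZMod (q n)), S n)
    rw [T_iter_c, T_iter_c, T_iter_r, T_iter_r, T_iter_g, T_iter_g]
    show (c n, (0 : ZMod (q n)) + k, S (n + k)) = (c' n, (0 : ZMod (q n)) + k, S (n + k)) ↔ _
    simp
  have e1 : d0 (base c) (base c') = (1 / 2 : ℝ) ^ PiNat.firstDiff (base c).code (base c').code :=
    PiNat.dist_eq_of_ne hb
  have e2 : d0 (T^[k] (base c)) (T^[k] (base c')) =
      (1 / 2 : ℝ) ^ PiNat.firstDiff (T^[k] (base c)).code (T^[k] (base c')).code :=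
    PiNat.dist_eq_of_ne hb'
  rw [e1, e2]
  congr 1
  apply le_antisymm
  · by_contra hcon
    push Not at hcon
    have := PiNat.apply_eq_of_lt_firstDiff hcon
    rw [key] at this
    exact PiNat.apply_firstDiff_ne hb this
  · by_contra hcon
    push Not at hcon
    have := PiNat.apply_eq_of_lt_firstDiff hcon
    rw [← key] at this
    exact PiNat.apply_firstDiff_ne hb' this

end Leaf


/-! ## Part 4: the map of the tree -/

section MapSec

variable {M : Type} [MetricSpace M] [IsUltrametricDist M]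

/-- The value of the tree map on a representative. -/
noncomputable def preMap (Tm : M → M) (P : PreTree M) : Tree M := tau (Tm P.pt) (4 * P.ht - 3)

lemma tau_clamp (x : M) (t : ℝ) : tau x t = tau x (max 0 (min 1 t)) := by
  unfold tau
  have h0 : (0 : ℝ) ≤ max 0 (min 1 t) := le_max_left _ _
  have h1 : max 0 (min 1 t) ≤ 1 := max_le zero_le_one (min_le_left _ _)
  simp only [clamp_eq h0 h1]

lemma preMap_lip (Tm : M → M) (hT : ∀ x y, dist (Tm x) (Tm y) ≤ 4 * dist x y)
    (hle : ∀ x y : M, dist x y ≤ 1) (P Q : PreTree M) :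
    dist (preMap Tm P) (preMap Tm Q) ≤ 4 * dist P Q := by
  obtain ⟨x, s, hs0, hs1⟩ := P
  obtain ⟨y, t, ht0, ht1⟩ := Q
  unfold preMap
  simp only
  rw [tau_clamp (Tm x), tau_clamp (Tm y)]
  have e1 : max 0 (min 1 (4 * s - 3)) = max 0 (4 * s - 3) := by
    rw [min_eq_right (by linarith)]
  have e2 : max 0 (min 1 (4 * t - 3)) = max 0 (4 * t - 3) := by
    rw [min_eq_right (by linarith)]
  rw [e1, e2, dist_tau (le_max_left _ _) (max_le zero_le_one (by linarith)) (le_max_left _ _)
    (max_le zero_le_one (by linarith)), PreTree.dist_def]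
  unfold PreTree.meet
  simp only
  have hd := hT x y
  have hd1 := hle (Tm x) (Tm y)
  have hd2 := hle x y
  set m := min (min s t) (1 - dist x y) with hm
  have hms : m ≤ s := (min_le_left _ _).trans (min_le_left _ _)
  have hmt : m ≤ t := (min_le_left _ _).trans (min_le_right _ _)
  have hmd : m ≤ 1 - dist x y := min_le_right _ _
  have hkey : max 0 (4 * m - 3) ≤
      min (min (max 0 (4 * s - 3)) (max 0 (4 * t - 3))) (1 - dist (Tm x) (Tm y)) := by
    refine le_min (le_min ?_ ?_) ?_
    · exact max_le_max le_rfl (by linarith)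
    · exact max_le_max le_rfl (by linarith)
    · exact max_le (by linarith) (by linarith)
  have h1 : max 0 (4 * s - 3) - max 0 (4 * m - 3) ≤ 4 * (s - m) := by
    rcases le_total 0 (4 * s - 3) with h | h
    · rw [max_eq_right h]
      have := le_max_right 0 (4 * m - 3)
      linarith
    · rw [max_eq_left h]
      have := le_max_left 0 (4 * m - 3)
      linarith
  have h2 : max 0 (4 * t - 3) - max 0 (4 * m - 3) ≤ 4 * (t - m) := by
    rcases le_total 0 (4 * t - 3) with h | h
    · rw [max_eq_right h]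
      have := le_max_right 0 (4 * m - 3)
      linarith
    · rw [max_eq_left h]
      have := le_max_left 0 (4 * m - 3)
      linarith
  linarith

/-- The map of the tree induced by the map `Tm` of the set of ends. -/
noncomputable def treeMap (Tm : M → M) (hT : ∀ x y, dist (Tm x) (Tm y) ≤ 4 * dist x y)
    (hle : ∀ x y : M, dist x y ≤ 1) : Tree M → Tree M :=
  SeparationQuotient.lift (preMap Tm) (fun P Q h => by
    have h1 := preMap_lip Tm hT hle P Q
    rw [Metric.inseparable_iff.1 h, mul_zero] at h1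
    exact dist_le_zero.1 h1)

lemma continuous_treeMap (Tm : M → M) (hT : ∀ x y, dist (Tm x) (Tm y) ≤ 4 * dist x y)
    (hle : ∀ x y : M, dist x y ≤ 1) : Continuous (treeMap Tm hT hle) := by
  refine SeparationQuotient.continuous_lift ?_
  have : LipschitzWith 4 (preMap Tm) := LipschitzWith.of_dist_le_mul (fun P Q => by
    simpa using preMap_lip Tm hT hle P Q)
  exact this.continuous

lemma treeMap_tau (Tm : M → M) (hT : ∀ x y, dist (Tm x) (Tm y) ≤ 4 * dist x y)
    (hle : ∀ x y : M, dist x y ≤ 1) (x : M) {t : ℝ} (ht : t ≤ 1) :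
    treeMap Tm hT hle (tau x t) = tau (Tm x) (4 * t - 3) := by
  show tau (Tm x) (4 * max 0 (min 1 t) - 3) = _
  rcases le_total 0 t with h | h
  · rw [clamp_eq h ht]
  · rw [tau_clamp (Tm x) (4 * t - 3), tau_clamp (Tm x) (4 * max 0 (min 1 t) - 3)]
    congr 1
    rw [max_eq_left ((min_le_right _ _).trans h), max_eq_left, max_eq_left]
    · exact (min_le_right _ _).trans (by linarith)
    · exact (min_le_right _ _).trans (by linarith)

lemma treeMap_iter (Tm : M → M) (hT : ∀ x y, dist (Tm x) (Tm y) ≤ 4 * dist x y)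
    (hle : ∀ x y : M, dist x y ≤ 1) (x : M) {t : ℝ} (ht : t ≤ 1) (k : ℕ) :
    (treeMap Tm hT hle)^[k] (tau x t) = tau (Tm^[k] x) (1 - 4 ^ k * (1 - t)) := by
  induction k with
  | zero => simp
  | succ k ih =>
    rw [Function.iterate_succ_apply', ih, treeMap_tau, Function.iterate_succ_apply']
    · congr 1
      ring
    · have : (0 : ℝ) ≤ 4 ^ k * (1 - t) := mul_nonneg (by positivity) (by linarith)
      linarith

lemma treeMap_iter_low (Tm : M → M) (hT : ∀ x y, dist (Tm x) (Tm y) ≤ 4 * dist x y)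
    (hle : ∀ x y : M, dist x y ≤ 1) (x x0 : M) {t : ℝ} (ht : t < 1) :
    ∃ N : ℕ, ∀ k, N ≤ k → (treeMap Tm hT hle)^[k] (tau x t) = tau x0 0 := by
  have h1 : 0 < 1 - t := by linarith
  obtain ⟨N, hN⟩ : ∃ N : ℕ, 1 / (1 - t) < 4 ^ N := pow_unbounded_of_one_lt _ (by norm_num)
  refine ⟨N, fun k hk => ?_⟩
  rw [treeMap_iter Tm hT hle x ht.le]
  have h2 : (4 : ℝ) ^ N ≤ 4 ^ k := pow_le_pow_right₀ (by norm_num) hk
  have h3 : 1 ≤ 4 ^ k * (1 - t) := by
    have h4 : 1 / (1 - t) * (1 - t) ≤ 4 ^ k * (1 - t) :=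
      mul_le_mul_of_nonneg_right (hN.le.trans h2) h1.le
    rwa [one_div, inv_mul_cancel₀ h1.ne'] at h4
  rw [tau_clamp]
  have h5 : max 0 (min 1 (1 - 4 ^ k * (1 - t))) = 0 := by
    rw [max_eq_left]
    exact (min_le_right _ _).trans (by linarith)
  rw [h5, tau_eq_iff le_rfl zero_le_one le_rfl zero_le_one]
  exact ⟨rfl, by simpa using hle _ _⟩

/-- If every pair of ends is eventually equal or eventually far apart, the tree map has no
Li-Yorke pair. -/
lemma no_LYPair [CompactSpace M] (Tm : M → M) (hT : ∀ x y, dist (Tm x) (Tm y) ≤ 4 * dist x y)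
    (hle : ∀ x y : M, dist x y ≤ 1)
    (hdich : ∀ x y : M, (∃ N, ∀ k, N ≤ k → Tm^[k] x = Tm^[k] y) ∨
      ∃ ε : ℝ, 0 < ε ∧ ∃ N, ∀ k, N ≤ k → ε ≤ dist (Tm^[k] x) (Tm^[k] y)) :
    ¬ HasLYPair (treeMap Tm hT hle) := by
  rintro ⟨p, p', hne, hinf, hsup⟩
  set f := treeMap Tm hT hle with hf
  have hbdd : ∀ k, dist (f^[k] p) (f^[k] p') ≤ Metric.diam (univ : Set (Tree M)) := fun k =>
    Metric.dist_le_diam_of_mem isCompact_univ.isBounded (mem_univ _) (mem_univ _)
  have hA : (∃ N, ∀ k, N ≤ k → f^[k] p = f^[k] p') → False := by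
    rintro ⟨N, hN⟩
    have h0 : (fun k : ℕ => dist (f^[k] p) (f^[k] p')) =ᶠ[atTop] fun _ => (0 : ℝ) := by
      filter_upwards [eventually_ge_atTop N] with k hk
      rw [hN k hk, dist_self]
    rw [limsup_congr h0, limsup_const] at hsup
    exact lt_irrefl _ hsup
  have hB : (∃ ε : ℝ, 0 < ε ∧ ∃ N, ∀ k, N ≤ k → ε ≤ dist (f^[k] p) (f^[k] p')) → False := by
    rintro ⟨ε, hε, N, hN⟩
    have h1 : ε ≤ liminf (fun k : ℕ => dist (f^[k] p) (f^[k] p')) atTop := by
      refine le_liminf_of_le ?_ ?_
      · exact IsBoundedUnder.isCoboundedUnder_ge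
          (isBoundedUnder_of ⟨Metric.diam (univ : Set (Tree M)), hbdd⟩)
      · filter_upwards [eventually_ge_atTop N] with k hk
        exact hN k hk
    rw [hinf] at h1
    exact absurd hε (not_lt.2 h1)
  obtain ⟨x, s, hs0, hs1, rfl⟩ := exists_tau p
  obtain ⟨y, t, ht0, ht1, rfl⟩ := exists_tau p'
  rcases lt_or_eq_of_le hs1 with hs | hs
  · obtain ⟨N, hN⟩ := treeMap_iter_low Tm hT hle x x hs
    rcases lt_or_eq_of_le ht1 with ht | ht
    · obtain ⟨N', hN'⟩ := treeMap_iter_low Tm hT hle y x ht
      apply hA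
      refine ⟨max N N', fun k hk => ?_⟩
      rw [hf, hN k ((le_max_left _ _).trans hk), hN' k ((le_max_right _ _).trans hk)]
    · subst ht
      apply hB
      refine ⟨1, one_pos, N, fun k hk => ?_⟩
      rw [hf, hN k hk, treeMap_iter Tm hT hle y le_rfl]
      have : (1 : ℝ) - 4 ^ k * (1 - 1) = 1 := by ring
      rw [this, dist_comm, dist_root hle _ _ zero_le_one le_rfl]
  · subst hs
    rcases lt_or_eq_of_le ht1 with ht | ht
    · obtain ⟨N', hN'⟩ := treeMap_iter_low Tm hT hle y x ht
      apply hB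
      refine ⟨1, one_pos, N', fun k hk => ?_⟩
      rw [hf, hN' k hk, treeMap_iter Tm hT hle x le_rfl]
      have : (1 : ℝ) - 4 ^ k * (1 - 1) = 1 := by ring
      rw [this, dist_root hle _ _ zero_le_one le_rfl]
    · subst ht
      rcases hdich x y with ⟨N, hN⟩ | ⟨ε, hε, N, hN⟩
      · apply hA
        refine ⟨N, fun k hk => ?_⟩
        rw [hf, treeMap_iter Tm hT hle x le_rfl, treeMap_iter Tm hT hle y le_rfl, hN k hk]
      · apply hB
        refine ⟨ε, hε, N, fun k hk => ?_⟩
        rw [hf, treeMap_iter Tm hT hle x le_rfl, treeMap_iter Tm hT hle y le_rfl]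
        have e : (1 : ℝ) - 4 ^ k * (1 - 1) = 1 := by ring
        rw [e, dist_tau zero_le_one le_rfl zero_le_one le_rfl, min_self, min_eq_right]
        · have := hN k hk
          linarith
        · have : (0 : ℝ) ≤ dist (Tm^[k] x) (Tm^[k] y) := dist_nonneg
          linarith

/-- Distance between iterates of two ends of the tree. -/
lemma dist_iter_ends (Tm : M → M) (hT : ∀ x y, dist (Tm x) (Tm y) ≤ 4 * dist x y)
    (hle : ∀ x y : M, dist x y ≤ 1) (x y : M) (k : ℕ) :
    dist ((treeMap Tm hT hle)^[k] (tau x 1)) ((treeMap Tm hT hle)^[k] (tau y 1)) =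
      2 * dist (Tm^[k] x) (Tm^[k] y) := by
  rw [treeMap_iter Tm hT hle x le_rfl, treeMap_iter Tm hT hle y le_rfl]
  have e : (1 : ℝ) - 4 ^ k * (1 - 1) = 1 := by ring
  rw [e, dist_tau zero_le_one le_rfl zero_le_one le_rfl, min_self, min_eq_right]
  · ring
  · have : (0 : ℝ) ≤ dist (Tm^[k] x) (Tm^[k] y) := dist_nonneg
    linarith

end MapSec

/-! ## Part 5: frequencies and the main theorem -/

lemma freq_nonneg {X : Type} [MetricSpace X] (f : X → X) (x y : X) (δ : ℝ) (n : ℕ) :
    0 ≤ freq f x y δ n := by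
  unfold freq
  positivity

lemma freq_le_two {X : Type} [MetricSpace X] (f : X → X) (x y : X) (δ : ℝ) (n : ℕ) :
    freq f x y δ n ≤ 2 := by
  unfold freq
  rcases Nat.eq_zero_or_pos n with rfl | hn
  · simp
  · have h1 : (((Finset.range (n + 1)).filter
        (fun k => dist (f^[k] x) (f^[k] y) < δ)).card : ℝ) ≤ n + 1 := by
      have := Finset.card_filter_le (Finset.range (n + 1))
        (fun k => dist (f^[k] x) (f^[k] y) < δ)
      rw [Finset.card_range] at this
      exact_mod_cast this
    have hn' : (1 : ℝ) ≤ n := by exact_mod_cast hn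
    rw [one_div, inv_mul_le_iff₀ (by linarith)]
    linarith

/-- Number of zeros of the sequence among the first `n + 1` terms. -/
def zeros (n : ℕ) : ℕ := ((Finset.range (n + 1)).filter (fun k => S k = 0)).card

lemma zeros_even {K : ℕ} (hK : Even K) : (3 / 4 : ℝ) * q K ≤ zeros (q K) := by
  refine (cnt_ge K).trans ?_
  have h0 : (K : ZMod 2) = 0 := (ZMod.natCast_eq_zero_iff_even).2 hK
  have : cnt K ≤ zeros (q K) := by
    unfold cnt zeros
    apply Finset.card_le_card
    intro n hn
    simp only [Finset.mem_filter, Finset.mem_range] at hn ⊢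
    rw [h0] at hn
    exact ⟨by omega, hn.2⟩
  exact_mod_cast this

lemma zeros_odd {K : ℕ} (hK : Odd K) : (zeros (q K) : ℝ) ≤ 1 + (1 / 4) * q K := by
  have h0 : (K : ZMod 2) = 1 := (ZMod.natCast_eq_one_iff_odd).2 hK
  have h1 : zeros (q K) + cnt K ≤ q K + 1 := by
    unfold cnt zeros
    rw [← Finset.card_union_of_disjoint]
    · refine (Finset.card_le_card (t := Finset.range (q K + 1)) ?_).trans_eq (by simp)
      intro n hn
      simp only [Finset.mem_union, Finset.mem_filter, Finset.mem_range] at hn ⊢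
      omega
    · rw [Finset.disjoint_left]
      intro n hn hn'
      simp only [Finset.mem_filter, Finset.mem_range] at hn hn'
      rw [h0, hn.2] at hn'
      exact absurd hn'.2 (by decide)
  have h2 : (zeros (q K) : ℝ) + cnt K ≤ q K + 1 := by exact_mod_cast h1
  have h3 := cnt_ge K
  linarith

/-- The example. -/
noncomputable def fmap : Tree Leaf → Tree Leaf := treeMap Leaf.T Leaf.dist_T Leaf.D_le_one

lemma base_DC3 {c c' : ℕ → Bool} (hne : c ≠ c') :
    IsDC3Pair fmap (tau (Leaf.base c) 1) (tau (Leaf.base c') 1) := by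
  set ρ := Leaf.d0 (Leaf.base c) (Leaf.base c') with hρ
  have hρ0 : 0 < ρ := by
    refine lt_of_le_of_ne (Leaf.d0_nonneg _ _) (fun h => hne ?_)
    have := Leaf.eq_of_d0 h.symm
    exact congrArg Leaf.c this
  have hdist : ∀ k, dist (fmap^[k] (tau (Leaf.base c) 1)) (fmap^[k] (tau (Leaf.base c') 1)) =
      2 * (Leaf.wt (S k) * ρ) := by
    intro k
    unfold fmap
    rw [dist_iter_ends, Leaf.dist_base]
  have hwt0 : Leaf.wt 0 = 1 / 2 := if_pos rfl
  have hwt1 : ∀ a : ZMod 2, a ≠ 0 → Leaf.wt a = 1 := fun a ha => if_neg ha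
  refine ⟨?_, ρ, 2 * ρ, hρ0.le, by linarith, ?_, ?_⟩
  · intro h
    have h1 := hdist 0
    rw [Function.iterate_zero, id, id, h, dist_self, S_zero, hwt0] at h1
    linarith
  · have h1 : S 1 ≠ 0 := by decide
    have h2 := hdist 1
    rw [hwt1 _ h1, one_mul] at h2
    rw [← h2]
    exact Metric.dist_le_diam_of_mem isCompact_univ.isBounded (mem_univ _) (mem_univ _)
  · intro δ hδ1 hδ2
    have hfreq : ∀ n, freq fmap (tau (Leaf.base c) 1) (tau (Leaf.base c') 1) δ n =
        (1 / n : ℝ) * (zeros n : ℝ) := by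
      intro n
      unfold freq zeros
      congr 2
      refine congrArg Finset.card (Finset.filter_congr fun k _ => ?_)
      rw [hdist k]
      constructor
      · intro h
        by_contra h0
        rw [hwt1 _ h0] at h
        linarith
      · intro h
        rw [h, hwt0]
        linarith
    have hb1 : IsBoundedUnder (· ≤ ·) atTop
        (fun n : ℕ => freq fmap (tau (Leaf.base c) 1) (tau (Leaf.base c') 1) δ n) :=
      isBoundedUnder_of ⟨2, fun n => freq_le_two _ _ _ _ _⟩
    have hb2 : IsBoundedUnder (· ≥ ·) atTop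
        (fun n : ℕ => freq fmap (tau (Leaf.base c) 1) (tau (Leaf.base c') 1) δ n) :=
      isBoundedUnder_of ⟨0, fun n => freq_nonneg _ _ _ _ _⟩
    have hup : (3 / 4 : ℝ) ≤ upperPhi fmap (tau (Leaf.base c) 1) (tau (Leaf.base c') 1) δ := by
      refine le_limsup_of_frequently_le ?_ hb1
      rw [frequently_atTop]
      intro N
      refine ⟨q (2 * N), ?_, ?_⟩
      · have := lt_q (2 * N)
        omega
      · rw [hfreq]
        have h1 := zeros_even (K := 2 * N) (even_two_mul N)
        have h2 : (0 : ℝ) < q (2 * N) := by exact_mod_cast q_pos _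
        rw [one_div, ← div_eq_inv_mul, le_div_iff₀ h2]
        exact h1
    have hlo : lowerPhi fmap (tau (Leaf.base c) 1) (tau (Leaf.base c') 1) δ ≤ (1 / 2 : ℝ) := by
      refine liminf_le_of_frequently_le ?_ hb2
      rw [frequently_atTop]
      intro N
      refine ⟨q (2 * N + 1), ?_, ?_⟩
      · have := lt_q (2 * N + 1)
        omega
      · rw [hfreq]
        have h1 := zeros_odd (K := 2 * N + 1) (odd_two_mul_add_one N)
        have h2 : (8 : ℝ) ≤ q (2 * N + 1) := by
          have h3 : q 1 ≤ q (2 * N + 1) := q_le (by omega)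
          have h4 : q 1 = 8 := by decide
          rw [h4] at h3
          exact_mod_cast h3
        rw [one_div, ← div_eq_inv_mul, div_le_iff₀ (by linarith)]
        linarith
    linarith

lemma uncountable_bool : ¬ (Set.univ : Set (ℕ → Bool)).Countable := by
  intro h
  have h1 : Countable (ℕ → Bool) := Set.countable_univ_iff.1 h
  obtain ⟨e, he⟩ := exists_injective_nat (ℕ → Bool)
  have hinj : Function.Injective (fun s : Set ℕ => e (fun n => by
      classical exact decide (n ∈ s))) := by
    intro s t hst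
    have := he hst
    ext n
    have h2 := congrFun this n
    simpa using h2
  exact Function.cantor_injective _ hinj

/-- There are a dendrite and a continuous self-map of it which has an uncountable DC3 set
(in particular a DC3 pair), but no Li-Yorke pair at all (in particular no uncountable
Li-Yorke scrambled set). -/
theorem result : ∃ (X : Type) (_ : MetricSpace X) (f : X → X), IsDendrite X ∧ Continuous f ∧
    HasDC3Pair f ∧ HasUncountableDC3Set f ∧ ¬ HasLYPair f ∧ ¬ HasUncountableLYSet f := by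
  have hno : ¬ HasLYPair fmap := no_LYPair Leaf.T Leaf.dist_T Leaf.D_le_one Leaf.dichotomy
  have : Nonempty Leaf := ⟨Leaf.base (fun _ => false)⟩
  have hinj : Function.Injective (fun c : ℕ → Bool => tau (Leaf.base c) 1) := by
    intro c c' h
    by_contra hne
    exact (base_DC3 hne).1 h
  refine ⟨Tree Leaf, inferInstance, fmap, ?_, ?_, ?_, ?_, hno, ?_⟩
  · exact
      { compact := inferInstance
        connected := tree_preconnected Leaf.D_le_one
        locallyConnected := tree_locallyConnected Leaf.D_le_one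
        noCircle := fun K => ⟨fun e => tree_noCircle Leaf.D_le_one K e⟩ }
  · exact continuous_treeMap _ _ _
  · refine ⟨_, _, base_DC3 (c := fun _ => false) (c' := fun _ => true) ?_⟩
    intro h
    exact absurd (congrFun h 0) (by decide)
  · refine ⟨Set.range (fun c : ℕ → Bool => tau (Leaf.base c) 1), ?_, ?_⟩
    · intro hcount
      apply uncountable_bool
      rw [← Set.image_univ] at hcount
      exact Set.countable_of_injective_of_countable_image hinj.injOn hcount
    · rintro _ ⟨c, rfl⟩ _ ⟨c', rfl⟩ hne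
      exact base_DC3 (fun h => hne (by rw [h]))
  · rintro ⟨A, hA, hLY⟩
    have : A.Subsingleton := by
      intro x hx y hy
      by_contra hne
      exact hno ⟨x, y, hLY x hx y hy hne⟩
    exact hA this.countable

end Pool.Agent.Results.MP_5bdc9f_an.DendriteDC3
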